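import Pool.Agent.Helper67.Arc.Count
import Pool.Agent.Helper67.Arc.PrimeGap

set_option autoImplicit false

namespace Pool.Agent.Results.MP_8a2c42_co.FiveSixths

open Pool.Agent.Helper67.Arc Finset

/-- Collinear integral points have vanishing determinant. -/
theorem det_of_collinear {a1 a2 b1 b2 c1 c2 : ℤ}
    (h : Collinear ℝ ({((a1 : ℝ), (a2 : ℝ)), ((b1 : ℝ), (b2 : ℝ)), ((c1 : ℝ), (c2 : ℝ))} :
      Set (ℝ × ℝ))) :
    (b1 - a1) * (c2 - a2) = (c1 - a1) * (b2 - a2) := by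
  have h1 := (collinear_iff_of_mem (k := ℝ) (p₀ := ((a1 : ℝ), (a2 : ℝ)))
    (Set.mem_insert _ _)).1 h
  obtain ⟨v, hv⟩ := h1
  obtain ⟨r, hr⟩ := hv ((b1 : ℝ), (b2 : ℝ)) (by simp)
  obtain ⟨s, hs⟩ := hv ((c1 : ℝ), (c2 : ℝ)) (by simp)
  simp only [vadd_eq_add, Prod.ext_iff, Prod.fst_add, Prod.snd_add, Prod.smul_fst, Prod.smul_snd,
    smul_eq_mul] at hr hs
  obtain ⟨hr1, hr2⟩ := hr
  obtain ⟨hs1, hs2⟩ := hs
  have : ((b1 : ℝ) - a1) * (c2 - a2) = (c1 - a1) * (b2 - a2) := by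
    rw [hr1, hr2, hs1, hs2]; ring
  exact_mod_cast this

/-- The colouring for a given prime. -/
theorem colouring {q m n : ℕ} [Fact q.Prime] (hodd : q % 2 = 1) (hm : 3 * m < q) (hq : 3 < q)
    (hn : n + 2 * m ≤ 2 * q) :
    ∃ f : Fin n × Fin n → Finset (Fin (5 * m * q)), (∀ P, (f P).card = 3 * (m - 5)) ∧
      ∀ (j : Fin (5 * m * q)) (P Q R : Fin n × Fin n), P ≠ Q → Q ≠ R → P ≠ R →
        j ∈ f P → j ∈ f Q → j ∈ f R →
        ¬ Collinear ℝ ({(((P.1 : ℕ) : ℝ), ((P.2 : ℕ) : ℝ)), (((Q.1 : ℕ) : ℝ), ((Q.2 : ℕ) : ℝ)),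
          (((R.1 : ℕ) : ℝ), ((R.2 : ℕ) : ℝ))} : Set (ℝ × ℝ)) := by
  classical
  have hcard : Fintype.card (Fin m × Fin 5 × ZMod q) = 5 * m * q := by
    rw [Fintype.card_prod, Fintype.card_prod, Fintype.card_fin, Fintype.card_fin, ZMod.card]
    ring
  let e : Fin m × Fin 5 × ZMod q ≃ Fin (5 * m * q) := Fintype.equivFinOfCardEq hcard
  let g : Fin n × Fin n → Fin m × Fin 5 → Fin m × Fin 5 × ZMod q := fun P ic =>
    (ic.1, ic.2, ((val ic.2 (sx (P.1 : ℕ) ic.1) (sy (P.2 : ℕ) ic.1) : ℤ) : ZMod q))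
  have hg : ∀ P, Function.Injective (g P) := by
    rintro P ⟨a, b⟩ ⟨a', b'⟩ h
    simp only [g, Prod.mk.injEq] at h
    rw [h.1, h.2.1]
  have hS : ∀ P : Fin n × Fin n, ∃ T : Finset (Fin m × Fin 5),
      T ⊆ sel q m (P.1 : ℕ) (P.2 : ℕ) ∧ T.card = 3 * (m - 5) := fun P =>
    exists_subset_card_eq (sel_card hm hq _ _)
  choose T hT hTc using hS
  refine ⟨fun P => (T P).map ⟨fun ic => e (g P ic), e.injective.comp (hg P)⟩, fun P => ?_, ?_⟩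
  · rw [card_map, hTc]
  · intro j P Q R hPQ hQR hPR hP hQ hR hcol
    simp only [mem_map, Function.Embedding.coeFn_mk] at hP hQ hR
    obtain ⟨⟨i1, c1⟩, hP1, hP2⟩ := hP
    obtain ⟨⟨i2, c2⟩, hQ1, hQ2⟩ := hQ
    obtain ⟨⟨i3, c3⟩, hR1, hR2⟩ := hR
    have h12 := e.injective (hP2.trans hQ2.symm)
    have h13 := e.injective (hP2.trans hR2.symm)
    simp only [g, Prod.mk.injEq] at h12 h13
    obtain ⟨rfl, rfl, hv12⟩ := h12
    obtain ⟨rfl, rfl, hv13⟩ := h13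
    have hP3 := hT P hP1
    have hQ3 := hT Q hQ1
    have hR3 := hT R hR1
    simp only [sel, mem_filter, mem_univ, true_and] at hP3 hQ3 hR3
    have hcast : ∀ {a b : ℤ}, (a : ZMod q) = b → (q : ℤ) ∣ b - a := by
      intro a b h
      apply (ZMod.intCast_zmod_eq_zero_iff_dvd (b - a) q).1
      rw [Int.cast_sub, sub_eq_zero]
      exact h.symm
    have hi := i1.2
    have mk : ∀ X Y : Fin n, reg q c1 (sx (X : ℕ) i1) (sy (Y : ℕ) i1) →
        (q : ℤ) ∣ val c1 (sx (X : ℕ) i1) (sy (Y : ℕ) i1) -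
          val c1 (sx (P.1 : ℕ) i1) (sy (P.2 : ℕ) i1) →
        Good q c1 (val c1 (sx (P.1 : ℕ) i1) (sy (P.2 : ℕ) i1)) (sx (X : ℕ) i1)
          (sy (Y : ℕ) i1) := by
      intro X Y hr hv
      have := X.2
      have := Y.2
      refine ⟨?_, ?_, ?_, ?_, hv, hr⟩ <;> simp only [sx, sy] <;> omega
    have ne : ∀ {A B : Fin n × Fin n}, A ≠ B →
        ¬ (sx (A.1 : ℕ) i1 = sx (B.1 : ℕ) i1 ∧ sy (A.2 : ℕ) i1 = sy (B.2 : ℕ) i1) := by
      intro A B hAB h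
      apply hAB
      unfold sx sy at h
      exact Prod.ext (Fin.ext (by omega)) (Fin.ext (by omega))
    refine arc hodd c1 hP3.2 (mk P.1 P.2 hP3.1 (by simp)) (mk Q.1 Q.2 hQ3.1 (hcast hv12))
      (mk R.1 R.2 hR3.1 (hcast hv13)) ?_ (ne hPQ) (ne hPR) (ne hQR)
    have hd := det_of_collinear (a1 := (P.1 : ℕ)) (a2 := (P.2 : ℕ)) (b1 := (Q.1 : ℕ))
      (b2 := (Q.2 : ℕ)) (c1 := (R.1 : ℕ)) (c2 := (R.2 : ℕ)) (by push_cast; exact hcol)
    unfold sx sy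
    linear_combination hd

/-- For every `ε > 0` and all large `n` the fractional arc chromatic number of the `n × n` grid is
at most `(5/6 + ε) n`. -/
theorem result : ∀ ε : ℝ, 0 < ε → ∃ n₀ : ℕ, ∀ n : ℕ, n₀ ≤ n →
    ∃ k b : ℕ, 0 < b ∧ (k : ℝ) / b ≤ (5 / 6 + ε) * n ∧
      ∃ f : Fin n × Fin n → Finset (Fin k), (∀ P, (f P).card = b) ∧
        ∀ (j : Fin k) (P Q R : Fin n × Fin n), P ≠ Q → Q ≠ R → P ≠ R →
          j ∈ f P → j ∈ f Q → j ∈ f R →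
          ¬ Collinear ℝ ({(((P.1 : ℕ) : ℝ), ((P.2 : ℕ) : ℝ)), (((Q.1 : ℕ) : ℝ), ((Q.2 : ℕ) : ℝ)),
            (((R.1 : ℕ) : ℝ), ((R.2 : ℕ) : ℝ))} : Set (ℝ × ℝ)) := by
  intro ε hε
  -- parameters
  set δ : ℝ := min 1 (ε / 3) with hδ
  have hδ0 : 0 < δ := lt_min one_pos (by positivity)
  have hδ1 : δ ≤ 1 := min_le_left _ _
  have hδ3 : δ ≤ ε / 3 := min_le_right _ _
  obtain ⟨m, hm⟩ := exists_nat_ge (5 + 5 / δ + 1)
  have hm5 : (5 : ℝ) + 5 / δ ≤ m := by linarith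
  have hm6 : 6 ≤ m := by
    have : (6 : ℝ) ≤ m := by
      have : 0 < 5 / δ := by positivity
      linarith
    exact_mod_cast this
  have hmd : (m : ℝ) ≤ (1 + δ) * (m - 5) := by
    have h1 : 5 ≤ δ * (m - 5) := by
      have : 5 / δ ≤ m - 5 := by linarith
      rw [div_le_iff₀ hδ0] at this
      linarith
    nlinarith
  obtain ⟨X, hX⟩ := exists_prime_between (η := δ / 3) (by positivity)
  obtain ⟨n₀, hn₀⟩ := exists_nat_ge (max (2 * X) (max (6 * m / δ) (6 * m + 10)))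
  refine ⟨n₀, fun n hn => ?_⟩
  have hnr : (n₀ : ℝ) ≤ n := by exact_mod_cast hn
  have hn1 : 2 * X ≤ n := (le_max_left _ _).trans (hn₀.trans hnr)
  have hn2 : 6 * m / δ ≤ (n : ℝ) :=
    ((le_max_left _ _).trans (le_max_right _ _)).trans (hn₀.trans hnr)
  have hn3 : (6 * m + 10 : ℝ) ≤ n :=
    ((le_max_right _ _).trans (le_max_right _ _)).trans (hn₀.trans hnr)
  rw [div_le_iff₀ hδ0] at hn2
  have hn3' : 6 * m + 10 ≤ n := by exact_mod_cast hn3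
  obtain ⟨q, hqp, hq1, hq2⟩ := hX (n / 2 + m) (by linarith)
  have : Fact q.Prime := ⟨hqp⟩
  have hq1' : n + 2 * m < 2 * q := by
    have : (n : ℝ) + 2 * m < 2 * q := by linarith
    exact_mod_cast this
  have hodd : q % 2 = 1 := by
    rcases hqp.eq_two_or_odd with h | h
    · omega
    · exact h
  refine ⟨5 * m * q, 3 * (m - 5), by omega, ?_,
    colouring hodd (by omega) (by omega) (by omega)⟩
  have hcast : ((3 * (m - 5) : ℕ) : ℝ) = 3 * ((m : ℝ) - 5) := by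
    push_cast [Nat.cast_sub (show 5 ≤ m by omega)]
    ring
  have hm5' : (0 : ℝ) < m - 5 := by
    have : (6 : ℝ) ≤ m := by exact_mod_cast hm6
    linarith
  rw [hcast, div_le_iff₀ (by positivity)]
  push_cast
  -- `q ≤ (1 + δ) n / 2`
  have hn0 : (0 : ℝ) ≤ n := Nat.cast_nonneg _
  have hq3 : (q : ℝ) ≤ (1 + δ) * n / 2 := by
    refine hq2.trans ?_
    have h1 : (m : ℝ) ≤ δ * n / 6 := by linarith
    nlinarith
  have hq0 : (0 : ℝ) ≤ q := Nat.cast_nonneg _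
  have hfin : (1 + δ) * (1 + δ) * (5 / 2) ≤ (5 / 6 + ε) * 3 := by nlinarith
  calc 5 * (m : ℝ) * q ≤ 5 * ((1 + δ) * (m - 5)) * ((1 + δ) * n / 2) := by
        gcongr
    _ = ((1 + δ) * (1 + δ) * (5 / 2)) * (n * (m - 5)) := by ring
    _ ≤ ((5 / 6 + ε) * 3) * (n * (m - 5)) := by
        apply mul_le_mul_of_nonneg_right hfin
        positivity
    _ = (5 / 6 + ε) * n * (3 * (m - 5)) := by ring

end Pool.Agent.Results.MP_8a2c42_co.FiveSixths
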